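import Pool.Agent.Helper14.TL7.StD

/-!
# Project TL (levels `4·7^n`), module Omg: the value at the origin of a list of operators
-/

set_option autoImplicit false

namespace Pool.Agent.Helper71.TL7

open Pool.Agent.Helper14.TL7
open Pool.Agent.Helper4.S7 Pool.Agent.Helper84.S7

section ops

variable {r s : ℕ}

private theorem om_lw_zero (k : ℤ) : Lw (0 : Module.End (ZMod 7) (Fn7 (7 ^ r) (7 ^ s))) k := by
  intro d F _
  rw [LinearMap.zero_apply]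
  exact Submodule.zero_mem _

private theorem om_lw_pow (hLow0 : S7Low0) (O : Module.End (ZMod 7) (Fn7 (7 ^ r) (7 ^ s))) (k : ℕ)
    (h : Lw O k) (n : ℕ) : Lw (O ^ n) ((k * n : ℕ) : ℤ) := by
  obtain ⟨l1, l2, l3, l4, l5, l6, l7, l8, _⟩ := hLow0 r s
  induction n with
  | zero => simpa using l6
  | succ n ih =>
    rw [pow_succ]
    have := l1 _ _ _ _ ih h
    have e : ((k * n : ℕ) : ℤ) + k = ((k * (n + 1) : ℕ) : ℤ) := by push_cast; ring
    rw [e] at this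
    exact this

/-- the monomials without the torus part -/
private def omm (t : ℕ × ℕ × ℕ) : Module.End (ZMod 7) (Fn7 (7 ^ r) (7 ^ s)) :=
  (oB - 1) ^ t.1 * (oD - 1) ^ t.2.1 * (oA - 1) ^ t.2.2

private theorem om_mon (w : Fin 6) (t : ℕ × ℕ × ℕ) :
    (oW w * (oB - 1) ^ t.1 * (oD - 1) ^ t.2.1 * (oA - 1) ^ t.2.2 :
      Module.End (ZMod 7) (Fn7 (7 ^ r) (7 ^ s))) = oW w * omm t := by
  unfold omm
  simp only [mul_assoc]

private theorem om_lw_omm (hLow0 : S7Low0) (hNfa : S7Nfa) (t : ℕ × ℕ × ℕ) :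
    Lw (omm t : Module.End (ZMod 7) (Fn7 (7 ^ r) (7 ^ s))) ((t.1 + 6 * t.2.1 + t.2.2 : ℕ) : ℤ) := by
  obtain ⟨l1, l2, l3, l4, l5, l6, l7, l8, _⟩ := hLow0 r s
  obtain ⟨n1, n2, n3, n4, n5, n6, n7, n8, n9, n10⟩ := hNfa r s
  have h0 := om_lw_pow hLow0 (oB - 1 : Module.End (ZMod 7) (Fn7 (7 ^ r) (7 ^ s))) 1
    (by exact_mod_cast n10) t.1
  have h1 := om_lw_pow hLow0 (oD - 1 : Module.End (ZMod 7) (Fn7 (7 ^ r) (7 ^ s))) 6
    (by exact_mod_cast n6) t.2.1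
  have h2 := om_lw_pow hLow0 (oA - 1 : Module.End (ZMod 7) (Fn7 (7 ^ r) (7 ^ s))) 1
    (by exact_mod_cast n9) t.2.2
  have h := l1 _ _ _ _ (l1 _ _ _ _ h0 h1) h2
  have e : ((1 * t.1 : ℕ) : ℤ) + ((6 * t.2.1 : ℕ) : ℤ) + ((1 * t.2.2 : ℕ) : ℤ)
      = ((t.1 + 6 * t.2.1 + t.2.2 : ℕ) : ℤ) := by push_cast; ring
  rw [e] at h
  exact h

private theorem om_pow (hLow0 : S7Low0) (O P : Module.End (ZMod 7) (Fn7 (7 ^ r) (7 ^ s)))
    (hO : Lw O 1) (hP : Lw P 1) (h : Lw (O - P) 2) (n : ℕ) : Lw (O ^ n - P ^ n) ((n : ℤ) + 1) := by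
  obtain ⟨l1, l2, l3, l4, _⟩ := hLow0 r s
  induction n with
  | zero =>
    rw [pow_zero, pow_zero, sub_self]
    exact om_lw_zero _
  | succ n ih =>
    have e : O ^ (n + 1) - P ^ (n + 1) = O ^ n * (O - P) + (O ^ n - P ^ n) * P := by
      rw [pow_succ, pow_succ, mul_sub, sub_mul]
      abel
    rw [e]
    have a1 := l1 _ _ _ _ (om_lw_pow hLow0 O 1 (by exact_mod_cast hO) n) h
    have a2 := l1 _ _ _ _ ih hP
    have e1 : ((1 * n : ℕ) : ℤ) + 2 = ((n + 1 : ℕ) : ℤ) + 1 := by push_cast; ring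
    have e2 : (n : ℤ) + 1 + 1 = ((n + 1 : ℕ) : ℤ) + 1 := by push_cast; ring
    rw [e1] at a1
    rw [e2] at a2
    exact l2 _ _ _ a1 a2

/-- the monomials of top weight -/
private theorem om_top (hLow0 : S7Low0) (hNfa : S7Nfa) (i j : ℕ) :
    Lw ((omm (i, 0, j) : Module.End (ZMod 7) (Fn7 (7 ^ r) (7 ^ s))) - dX ^ j * dY ^ i)
      (((i + j : ℕ) : ℤ) + 1) := by
  have hl := hLow0 r s
  obtain ⟨l1, l2, l3, l4, l5, l6, l7, l8, lc, _⟩ := hl
  obtain ⟨n1, n2, n3, n4, n5, n6, n7, n8, n9, n10⟩ := hNfa r s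
  have hB := om_lw_pow hLow0 (oB - 1 : Module.End (ZMod 7) (Fn7 (7 ^ r) (7 ^ s))) 1
    (by exact_mod_cast n10) i
  have hX := om_lw_pow hLow0 (dX : Module.End (ZMod 7) (Fn7 (7 ^ r) (7 ^ s))) 1
    (by exact_mod_cast l7) j
  have pA := om_pow hLow0 _ _ n9 l7 (l4 _ _ 2 (by norm_num) n7) j
  have pB := om_pow hLow0 _ _ n10 l8 (l4 _ _ 2 (by norm_num) n8) i
  have a1 := l1 _ _ _ _ hB pA
  have a2 := l1 _ _ _ _ pB hX
  have e1 : ((1 * i : ℕ) : ℤ) + ((j : ℤ) + 1) = ((i + j : ℕ) : ℤ) + 1 := by push_cast; ring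
  have e2 : (i : ℤ) + 1 + ((1 * j : ℕ) : ℤ) = ((i + j : ℕ) : ℤ) + 1 := by push_cast; ring
  rw [e1] at a1
  rw [e2] at a2
  have hcomm : (dX ^ j * dY ^ i : Module.End (ZMod 7) (Fn7 (7 ^ r) (7 ^ s))) = dY ^ i * dX ^ j := by
    have h1 : Commute (dX : Module.End (ZMod 7) (Fn7 (7 ^ r) (7 ^ s))) dY := lc
    exact (h1.pow_pow j i)
  have e : (omm (i, 0, j) : Module.End (ZMod 7) (Fn7 (7 ^ r) (7 ^ s))) - dX ^ j * dY ^ i =
      (oB - 1) ^ i * ((oA - 1) ^ j - dX ^ j) + ((oB - 1) ^ i - dY ^ i) * dX ^ j := by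
    rw [hcomm]
    unfold omm
    simp only [pow_zero, mul_one, mul_sub, sub_mul]
    abel
  rw [e]
  exact l2 _ _ _ a1 a2

private theorem om_cast {S : ℤ} (h : (7 : ℤ) ∣ S) : (S : ZMod 7) = 0 :=
  (ZMod.intCast_zmod_eq_zero_iff_dvd S 7).2 (by exact_mod_cast h)

private theorem om_zero (d : ℤ) (H : Fn7 (7 ^ r) (7 ^ s)) :
    (op7 1 0 0 d H : Fn7 (7 ^ r) (7 ^ s)) 0 0 = H 0 0 := by
  change H ((((0 : ℤ) : ZMod (7 ^ r)) + d * 0) * (((1 : ℤ) : ZMod (7 ^ r)) + 7 * ((0 : ℤ) : ZMod (7 ^ r)) * 0)⁻¹)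
    ((((0 : ℤ) : ZMod (7 ^ s)) + ((1 : ℤ) : ZMod (7 ^ s)) * 0) *
      (((d : ℤ) : ZMod (7 ^ s)) + 7 * ((0 : ℤ) : ZMod (7 ^ s)) * 0)⁻¹) = H 0 0
  have e1 : (((0 : ℤ) : ZMod (7 ^ r)) + d * 0) = 0 := by rw [Int.cast_zero, mul_zero, add_zero]
  have e2 : (((0 : ℤ) : ZMod (7 ^ s)) + ((1 : ℤ) : ZMod (7 ^ s)) * 0) = 0 := by
    rw [Int.cast_zero, mul_zero, add_zero]
  rw [e1, e2, zero_mul, zero_mul]

/-- the sum at the origin -/
private theorem om_eval (L : List Tm) (F : Fn7 (7 ^ r) (7 ^ s)) :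
    ((∑ w : Fin 6, ∑ t ∈ M9, ((cS L w t.1 t.2.1 t.2.2 : ℤ) : ZMod 7) •
      (oW w * (oB - 1) ^ t.1 * (oD - 1) ^ t.2.1 * (oA - 1) ^ t.2.2 :
        Module.End (ZMod 7) (Fn7 (7 ^ r) (7 ^ s)))) F) 0 0 =
    ∑ t ∈ M9, ((cO L t.1 t.2.1 t.2.2 : ℤ) : ZMod 7) *
      ((omm t : Module.End (ZMod 7) (Fn7 (7 ^ r) (7 ^ s))) F) 0 0 := by
  have e1 : ∀ (w : Fin 6) (t : ℕ × ℕ × ℕ), ((((cS L w t.1 t.2.1 t.2.2 : ℤ) : ZMod 7) •
      (oW w * (oB - 1) ^ t.1 * (oD - 1) ^ t.2.1 * (oA - 1) ^ t.2.2 :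
        Module.End (ZMod 7) (Fn7 (7 ^ r) (7 ^ s)))) F) 0 0 =
      ((cS L w t.1 t.2.1 t.2.2 : ℤ) : ZMod 7) *
        ((omm t : Module.End (ZMod 7) (Fn7 (7 ^ r) (7 ^ s))) F) 0 0 := by
    intro w t
    rw [om_mon]
    change ((cS L w t.1 t.2.1 t.2.2 : ℤ) : ZMod 7) *
      (op7 1 0 0 (om6 w) ((omm t : Module.End (ZMod 7) (Fn7 (7 ^ r) (7 ^ s))) F) : Fn7 (7 ^ r) (7 ^ s)) 0 0 = _
    rw [om_zero]
  rw [LinearMap.sum_apply, Finset.sum_apply, Finset.sum_apply]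
  have e2 : ∀ w : Fin 6, ((∑ t ∈ M9, ((cS L w t.1 t.2.1 t.2.2 : ℤ) : ZMod 7) •
      (oW w * (oB - 1) ^ t.1 * (oD - 1) ^ t.2.1 * (oA - 1) ^ t.2.2 :
        Module.End (ZMod 7) (Fn7 (7 ^ r) (7 ^ s)))) F) 0 0 =
      ∑ t ∈ M9, ((cS L w t.1 t.2.1 t.2.2 : ℤ) : ZMod 7) *
        ((omm t : Module.End (ZMod 7) (Fn7 (7 ^ r) (7 ^ s))) F) 0 0 := by
    intro w
    rw [LinearMap.sum_apply, Finset.sum_apply, Finset.sum_apply]
    exact Finset.sum_congr rfl fun t _ => e1 w t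
  rw [Finset.sum_congr rfl fun w _ => e2 w, Finset.sum_comm]
  refine Finset.sum_congr rfl fun t _ => ?_
  rw [← Finset.sum_mul]
  unfold cO
  rw [Int.cast_sum]

end ops

theorem hOmg (_ht : S7Trm) (hl : S7Low0) (hn : S7Nfa) (hx : S7Exp) : TOmg := by
  intro r s L n q hn8 hL hc F hF
  have hl' := hl r s
  obtain ⟨l1, l2, l3, l4, l5, l6, l7, l8, lc, lX, lY, lF, lK, lZ⟩ := hl'
  have hE := hx r s L hL (n : ℤ) F hF
  have hE0 := lZ _ (l5 _ (-1) (by omega) hE)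
  rw [LinearMap.sub_apply, sub_eq_zero] at hE0
  rw [hE0, om_eval L F]
  -- every term
  have hterm : ∀ t ∈ M9, ((cO L t.1 t.2.1 t.2.2 : ℤ) : ZMod 7) *
      ((omm t : Module.End (ZMod 7) (Fn7 (7 ^ r) (7 ^ s))) F) 0 0 =
      if t.2.1 = 0 ∧ t.1 + t.2.2 = n then ((q t.1 : ℤ) : ZMod 7) *
        ((dX ^ (n - t.1) * dY ^ t.1 : Module.End (ZMod 7) (Fn7 (7 ^ r) (7 ^ s))) F) 0 0 else 0 := by
    intro t ht
    have htM := ht
    unfold M9 at htM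
    rw [Finset.mem_filter, Finset.mem_product, Finset.mem_product, Finset.mem_range, Finset.mem_range,
      Finset.mem_range] at htM
    by_cases hw : t.1 + 6 * t.2.1 + t.2.2 ≤ n
    · by_cases hk : t.2.1 = 0 ∨ t.1 ≠ 0
      · have h1 := om_cast (hc t ht hk hw)
        rw [Int.cast_sub, sub_eq_zero] at h1
        rw [h1]
        by_cases hcond : t.2.1 = 0 ∧ t.1 + t.2.2 = n
        · rw [if_pos hcond, if_pos hcond]
          have h2 := om_top (r := r) (s := s) hl hn t.1 t.2.2 (n : ℤ) F hF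
          have h3 := lZ _ (l5 _ (-1) (by have := hcond.2; push_cast; omega) h2)
          rw [LinearMap.sub_apply, sub_eq_zero] at h3
          have h4 : t = (t.1, 0, t.2.2) := by
            obtain ⟨a, b, c⟩ := t
            simp only at hcond
            rw [hcond.1]
          have h5 : n - t.1 = t.2.2 := by omega
          rw [h5, ← h3, ← h4]
        · rw [if_neg hcond, if_neg hcond, Int.cast_zero, zero_mul]
      · rw [not_or, not_not] at hk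
        have hne : ¬ (t.2.1 = 0 ∧ t.1 + t.2.2 = n) := fun h => hk.1 h.1
        rw [if_neg hne]
        have h6 : t.2.1 = 1 := by
          have := htM.1.2.1
          have := hk.1
          omega
        have h7 : (omm t : Module.End (ZMod 7) (Fn7 (7 ^ r) (7 ^ s))) = (oD - 1) * (oA - 1) ^ t.2.2 := by
          unfold omm
          rw [hk.2, h6, pow_zero, pow_one, one_mul]
        have h8 : ((omm t : Module.End (ZMod 7) (Fn7 (7 ^ r) (7 ^ s))) F) 0 0 = 0 := by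
          rw [h7]
          change (op7 1 0 0 8 (((oA - 1) ^ t.2.2 : Module.End (ZMod 7) (Fn7 (7 ^ r) (7 ^ s))) F) :
            Fn7 (7 ^ r) (7 ^ s)) 0 0 - (((oA - 1) ^ t.2.2 : Module.End (ZMod 7) (Fn7 (7 ^ r) (7 ^ s))) F) 0 0 = 0
          rw [om_zero, sub_self]
        rw [h8, mul_zero]
    · have hne : ¬ (t.2.1 = 0 ∧ t.1 + t.2.2 = n) := by omega
      rw [if_neg hne]
      have h2 := om_lw_omm (r := r) (s := s) hl hn t (n : ℤ) F hF
      have h3 := lZ _ (l5 _ (-1) (by omega) h2)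
      rw [h3]
      change _ * (0 : ZMod 7) = 0
      rw [mul_zero]
  rw [Finset.sum_congr rfl hterm, ← Finset.sum_filter]
  -- the terms of weight n
  symm
  refine Finset.sum_bij (fun i _ => ((i, 0, n - i) : ℕ × ℕ × ℕ)) ?_ ?_ ?_ ?_
  · intro i hi
    rw [Finset.mem_range] at hi
    rw [Finset.mem_filter]
    unfold M9
    rw [Finset.mem_filter, Finset.mem_product, Finset.mem_product, Finset.mem_range,
      Finset.mem_range, Finset.mem_range]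
    refine ⟨⟨⟨?_, ?_, ?_⟩, ?_⟩, ?_, ?_⟩
    · show i < 9
      omega
    · show (0 : ℕ) < 2
      omega
    · show n - i < 9
      omega
    · show i + 6 * 0 + (n - i) ≤ 8
      omega
    · rfl
    · show i + (n - i) = n
      omega
  · intro i _ j _ hij
    exact congrArg Prod.fst hij
  · intro t ht
    rw [Finset.mem_filter] at ht
    obtain ⟨_, h1, h2⟩ := ht
    refine ⟨t.1, Finset.mem_range.2 (by omega), ?_⟩
    obtain ⟨a, b, c⟩ := t
    simp only at h1 h2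
    subst h1
    have : n - a = c := by omega
    rw [this]
  · intro i _
    rfl

end Pool.Agent.Helper71.TL7
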